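import Mathlib

/-!
# The equitable action of `U_q(sl₂)` on a Leonard pair of `q`-Racah type

For every Leonard pair `A, B` on `V` with the parameter array of the problem there is an irreducible
action of `U_q(sl₂)` (equitable presentation) on `V` under which `A`, `B` and `A^ε` are given by the
three formulas of the problem. In the basis of the second split decomposition `X` is diagonal, `Y` is
lower bidiagonal and `Z` is upper bidiagonal.
-/

set_option autoImplicit false

open Module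

universe u v

namespace Pool.Agent.Results.MP_dc3d2a_al.EquitableAction

section Definitions

variable {K : Type u} [Field K] {V : Type v} [AddCommGroup V] [Module K V]

/-- A square matrix is irreducible tridiagonal: the entries off the diagonal, the subdiagonal and
the superdiagonal are zero, the entries on the subdiagonal and the superdiagonal are not zero. -/
def IsIrredTridiagonal {n : ℕ} (M : Matrix (Fin n) (Fin n) K) : Prop :=
  ∀ i j : Fin n, (((i : ℕ) + 1 < j ∨ (j : ℕ) + 1 < i) → M i j = 0) ∧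
    (((i : ℕ) + 1 = j ∨ (j : ℕ) + 1 = i) → M i j ≠ 0)

/-- `A, B` is a Leonard pair on `V` (of dimension `d + 1`): some basis makes `A` diagonal and `B`
irreducible tridiagonal, and some basis makes `B` diagonal and `A` irreducible tridiagonal. -/
def IsLeonardPair (d : ℕ) (A B : End K V) : Prop :=
  (∃ e : Basis (Fin (d + 1)) K V, (LinearMap.toMatrix e e A).IsDiag ∧
    IsIrredTridiagonal (LinearMap.toMatrix e e B)) ∧
  (∃ e : Basis (Fin (d + 1)) K V, (LinearMap.toMatrix e e B).IsDiag ∧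
    IsIrredTridiagonal (LinearMap.toMatrix e e A))

/-- The lower bidiagonal matrix with diagonal `f 0, …, f d` and all subdiagonal entries `1`. -/
def lowerBi (d : ℕ) (f : ℕ → K) : Matrix (Fin (d + 1)) (Fin (d + 1)) K :=
  fun i j => if i = j then f i else if (i : ℕ) = j + 1 then 1 else 0

/-- The upper bidiagonal matrix with diagonal `f 0, …, f d` and superdiagonal `g 1, …, g d`. -/
def upperBi (d : ℕ) (f g : ℕ → K) : Matrix (Fin (d + 1)) (Fin (d + 1)) K :=
  fun i j => if i = j then f i else if (j : ℕ) = i + 1 then g j else 0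

/-- `A, B` has the parameter array `(θ_i, θ*_i (0 ≤ i ≤ d); φ_i, ϕ_i (1 ≤ i ≤ d))`; here
`φ = f1`, `ϕ = f2`. -/
def HasParameterArray (d : ℕ) (A B : End K V) (θ θs f1 f2 : ℕ → K) : Prop :=
  (∃ e : Basis (Fin (d + 1)) K V, LinearMap.toMatrix e e A = lowerBi d θ ∧
    LinearMap.toMatrix e e B = upperBi d θs f1) ∧
  (∃ e : Basis (Fin (d + 1)) K V, LinearMap.toMatrix e e A = lowerBi d (fun i => θ (d - i)) ∧
    LinearMap.toMatrix e e B = upperBi d θs f2)

/-- `λ_i(x) = x q^{2i-d} + x⁻¹ q^{d-2i}`. -/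
def lam (d : ℕ) (q x : K) (i : ℕ) : K :=
  x * q ^ (2 * (i : ℤ) - d) + x⁻¹ * q ^ ((d : ℤ) - 2 * i)

/-- `u_i = (q^{-i} - q^i)(q^{d-i+1} - q^{i-d-1})`. -/
def uu (d : ℕ) (q : K) (i : ℕ) : K :=
  (q ^ (-(i : ℤ)) - q ^ (i : ℤ)) * (q ^ ((d : ℤ) - i + 1) - q ^ ((i : ℤ) - d - 1))

/-- `r_i(x) = q^{-i} - x q^{i-d-1}`. -/
def rr (d : ℕ) (q x : K) (i : ℕ) : K :=
  q ^ (-(i : ℤ)) - x * q ^ ((i : ℤ) - d - 1)

/-- `φ_i = (q^{d+1} / (a b)) u_i r_i(abc) r_i(ab/c)`. -/
def phi1 (d : ℕ) (q a b c : K) (i : ℕ) : K :=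
  q ^ (d + 1) / (a * b) * uu d q i * rr d q (a * b * c) i * rr d q (a * b / c) i

/-- `ϕ_i = (a q^{d+1} / b) u_i r_i(bc/a) r_i(b/(ac))`. -/
def phi2 (d : ℕ) (q a b c : K) (i : ℕ) : K :=
  a * q ^ (d + 1) / b * uu d q i * rr d q (b * c / a) i * rr d q (b / (a * c)) i

/-- `s_x = x + x⁻¹`. -/
def ss (x : K) : K := x + x⁻¹

/-- `t = q^{d+1} + q^{-d-1}`. -/
def tt (d : ℕ) (q : K) : K := q ^ (d + 1) + (q ^ (d + 1))⁻¹

/-- The map `A^ε`, defined by
`(q² - q⁻²) A^ε = q⁻¹ A B - q B A + (q - q⁻¹)(s_a s_b + s_c t) I` (here `q⁴ ≠ 1`). -/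
def aEps (d : ℕ) (q a b c : K) (A B : End K V) : End K V :=
  (q ^ 2 - (q ^ 2)⁻¹)⁻¹ • (q⁻¹ • (A * B) - q • (B * A) +
    ((q - q⁻¹) * (ss a * ss b + ss c * tt d q)) • (1 : End K V))

/-- `X, X⁻¹ = Xi, Y, Z` satisfy the defining relations of `U_q(sl₂)` in the equitable presentation
and `V` is an irreducible module. -/
structure IsIrreducibleAction (q : K) (X Xi Y Z : End K V) : Prop where
  inv_left : X * Xi = 1
  inv_right : Xi * X = 1
  xy : q • (X * Y) - q⁻¹ • (Y * X) = (q - q⁻¹) • (1 : End K V)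
  yz : q • (Y * Z) - q⁻¹ • (Z * Y) = (q - q⁻¹) • (1 : End K V)
  zx : q • (Z * X) - q⁻¹ • (X * Z) = (q - q⁻¹) • (1 : End K V)
  nontriv : Nontrivial V
  irred : ∀ W : Submodule K V, (∀ x ∈ W, X x ∈ W ∧ Xi x ∈ W ∧ Y x ∈ W ∧ Z x ∈ W) →
    W = ⊥ ∨ W = ⊤

end Definitions

section Proof

variable {K : Type u} [Field K] {V : Type v} [AddCommGroup V] [Module K V]

/-- The vectors of a basis, continued by zero. -/
noncomputable def ww {d : ℕ} (e : Basis (Fin (d + 1)) K V) (j : ℕ) : V :=
  if h : j < d + 1 then e ⟨j, h⟩ else 0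

theorem ww_of_le {d : ℕ} (e : Basis (Fin (d + 1)) K V) (j : Fin (d + 1)) :
    ww e (j : ℕ) = e j := by
  rw [ww, dif_pos j.2]

theorem ww_gt {d : ℕ} (e : Basis (Fin (d + 1)) K V) {j : ℕ} (h : d < j) : ww e j = 0 := by
  rw [ww, dif_neg (by omega)]

theorem ww_ne {d : ℕ} (e : Basis (Fin (d + 1)) K V) {j : ℕ} (h : j ≤ d) : ww e j ≠ 0 := by
  rw [ww, dif_pos (by omega)]
  exact e.ne_zero _

theorem ext_ww {d : ℕ} (e : Basis (Fin (d + 1)) K V) {S T : End K V}
    (h : ∀ j, j ≤ d → S (ww e j) = T (ww e j)) : S = T := by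
  apply e.ext
  intro i
  have := h i (by omega)
  rwa [ww_of_le] at this

theorem apply_lower {d : ℕ} (e : Basis (Fin (d + 1)) K V) (A : End K V) (f : ℕ → K)
    (h : LinearMap.toMatrix e e A = lowerBi d f) (j : ℕ) (hj : j ≤ d) :
    A (ww e j) = f j • ww e j + ww e (j + 1) := by
  apply e.ext_elem
  intro i
  have h1 : e.repr (A (e ⟨j, by omega⟩)) i = lowerBi d f i ⟨j, by omega⟩ := by
    rw [← h, LinearMap.toMatrix_apply]
  have h2 : ww e j = e ⟨j, by omega⟩ := by rw [ww, dif_pos (by omega)]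
  rw [h2, h1, map_add, map_smul, e.repr_self]
  by_cases hd : j + 1 < d + 1
  · rw [ww, dif_pos hd, e.repr_self]
    simp only [lowerBi, Finsupp.add_apply, Finsupp.smul_apply, Finsupp.single_apply, Fin.ext_iff,
      smul_eq_mul]
    by_cases h3 : (i : ℕ) = j
    · simp [h3]
    · by_cases h4 : (i : ℕ) = j + 1
      · simp [h4]
      · have h5 : ¬ j = (i : ℕ) := fun h => h3 h.symm
        have h6 : ¬ j + 1 = (i : ℕ) := fun h => h4 h.symm
        simp [h3, h4, h5, h6]
  · rw [ww, dif_neg hd]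
    simp only [lowerBi, Finsupp.add_apply, Finsupp.smul_apply, Finsupp.single_apply, Fin.ext_iff,
      smul_eq_mul, map_zero, Finsupp.coe_zero, Pi.zero_apply]
    by_cases h3 : (i : ℕ) = j
    · simp [h3]
    · have h4 : ¬ (i : ℕ) = j + 1 := by omega
      have h5 : ¬ j = (i : ℕ) := fun h => h3 h.symm
      simp [h3, h4, h5]

theorem apply_upper_zero {d : ℕ} (e : Basis (Fin (d + 1)) K V) (A : End K V) (f g : ℕ → K)
    (h : LinearMap.toMatrix e e A = upperBi d f g) :
    A (ww e 0) = f 0 • ww e 0 := by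
  apply e.ext_elem
  intro i
  have h1 : e.repr (A (e ⟨0, by omega⟩)) i = upperBi d f g i ⟨0, by omega⟩ := by
    rw [← h, LinearMap.toMatrix_apply]
  have h2 : ww e 0 = e ⟨0, by omega⟩ := by rw [ww, dif_pos (by omega)]
  rw [h2, h1, map_smul, e.repr_self]
  simp only [upperBi, Finsupp.smul_apply, Finsupp.single_apply, Fin.ext_iff, smul_eq_mul]
  by_cases h3 : (i : ℕ) = 0
  · simp [h3]
  · have h5 : ¬ 0 = (i : ℕ) := fun h => h3 h.symm
    simp [h3, h5]

theorem apply_upper_succ {d : ℕ} (e : Basis (Fin (d + 1)) K V) (A : End K V) (f g : ℕ → K)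
    (h : LinearMap.toMatrix e e A = upperBi d f g) (j : ℕ) (hj : j + 1 ≤ d) :
    A (ww e (j + 1)) = f (j + 1) • ww e (j + 1) + g (j + 1) • ww e j := by
  apply e.ext_elem
  intro i
  have h1 : e.repr (A (e ⟨j + 1, by omega⟩)) i = upperBi d f g i ⟨j + 1, by omega⟩ := by
    rw [← h, LinearMap.toMatrix_apply]
  have h2 : ww e (j + 1) = e ⟨j + 1, by omega⟩ := by rw [ww, dif_pos (by omega)]
  have h2' : ww e j = e ⟨j, by omega⟩ := by rw [ww, dif_pos (by omega)]
  rw [h2, h2', h1, map_add, map_smul, map_smul, e.repr_self, e.repr_self]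
  simp only [upperBi, Finsupp.add_apply, Finsupp.smul_apply, Finsupp.single_apply, Fin.ext_iff,
    smul_eq_mul]
  by_cases h3 : (i : ℕ) = j + 1
  · simp [h3]
  · by_cases h4 : (i : ℕ) = j
    · simp [h4]
    · have h5 : ¬ j + 1 = (i : ℕ) := fun h => h3 h.symm
      have h6 : ¬ j = (i : ℕ) := fun h => h4 h.symm
      have h7 : ¬ j + 1 = (i : ℕ) + 1 := by omega
      simp [h3, h5, h6]

/-- Polynomials in an operator preserve invariant subspaces. -/
theorem aeval_mem (T : End K V) (W : Submodule K V) (hW : ∀ x ∈ W, T x ∈ W)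
    (p : Polynomial K) : ∀ x ∈ W, Polynomial.aeval T p x ∈ W := by
  induction p using Polynomial.induction_on' with
  | add p r hp hr =>
    intro x hx
    rw [map_add, LinearMap.add_apply]
    exact W.add_mem (hp x hx) (hr x hx)
  | monomial n c =>
    intro x hx
    rw [Polynomial.aeval_monomial, Module.End.mul_apply, Module.algebraMap_end_apply]
    apply W.smul_mem
    induction n with
    | zero => simpa using hx
    | succ n ih =>
      rw [pow_succ', Module.End.mul_apply]
      exact hW _ ih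

theorem aeval_eigen (T : End K V) (p : Polynomial K) (x : V) (α : K) (h : T x = α • x) :
    Polynomial.aeval T p x = p.eval α • x := by
  induction p using Polynomial.induction_on' with
  | add p r hp hr => rw [map_add, LinearMap.add_apply, hp, hr, Polynomial.eval_add, add_smul]
  | monomial n c =>
    rw [Polynomial.aeval_monomial, Module.End.mul_apply, Module.algebraMap_end_apply,
      Polynomial.eval_monomial, mul_smul]
    congr 1
    induction n with
    | zero => simp
    | succ n ih => rw [pow_succ', Module.End.mul_apply, ih, map_smul, h, smul_smul, pow_succ]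

/-- A nonzero subspace invariant under an operator with distinct eigenvalues contains one of the
vectors of the eigenbasis, and all those with a nonzero coordinate. -/
theorem eigen_mem {n : ℕ} (e : Basis (Fin n) K V) (T : End K V) (α : Fin n → K)
    (hT : ∀ i, T (e i) = α i • e i) (hα : Function.Injective α) (W : Submodule K V)
    (hW : ∀ x ∈ W, T x ∈ W) (x : V) (hx : x ∈ W) (i : Fin n) (hi : e.repr x i ≠ 0) :
    e i ∈ W := by
  classical
  set p : Polynomial K := ∏ j ∈ Finset.univ.erase i, (Polynomial.X - Polynomial.C (α j)) with hp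
  have h1 := aeval_mem T W hW p x hx
  have h2 : Polynomial.aeval T p x = (e.repr x i * p.eval (α i)) • e i := by
    conv_lhs => rw [← e.sum_repr x, map_sum]
    rw [Finset.sum_eq_single i]
    · rw [map_smul, aeval_eigen T p _ _ (hT i), smul_smul]
    · intro j _ hj
      rw [map_smul, aeval_eigen T p _ _ (hT j)]
      have : p.eval (α j) = 0 := by
        rw [hp, Polynomial.eval_prod]
        apply Finset.prod_eq_zero (i := j)
        · simp [hj]
        · simp
      rw [this, zero_smul, smul_zero]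
    · simp
  have h3 : p.eval (α i) ≠ 0 := by
    rw [hp, Polynomial.eval_prod]
    apply Finset.prod_ne_zero_iff.mpr
    intro j hj
    rw [Polynomial.eval_sub, Polynomial.eval_X, Polynomial.eval_C, sub_ne_zero]
    intro h
    have := hα h
    simp [this] at hj
  rw [h2] at h1
  have h4 : e.repr x i * p.eval (α i) ≠ 0 := mul_ne_zero hi h3
  have := W.smul_mem (e.repr x i * p.eval (α i))⁻¹ h1
  rwa [smul_smul, inv_mul_cancel₀ h4, one_smul] at this

/-- If a subspace contains one vector of a family indexed by `0, …, d` and with each vector its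
neighbours, then it contains all of them. -/
theorem all_mem {d : ℕ} (P : ℕ → Prop) (h1 : ∀ j, j < d → P j → P (j + 1))
    (h2 : ∀ j, j < d → P (j + 1) → P j) (i : ℕ) (hi : i ≤ d) (hP : P i) : ∀ j, j ≤ d → P j := by
  have hup : ∀ m, i + m ≤ d → P (i + m) := by
    intro m
    induction m with
    | zero => intro _; exact hP
    | succ m ih =>
      intro h
      have h3 := ih (by omega)
      have h4 := h1 (i + m) (by omega) h3
      rwa [show i + m + 1 = i + (m + 1) by omega] at h4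
  have hdown : ∀ m, m ≤ i → P (i - m) := by
    intro m
    induction m with
    | zero => intro _; exact hP
    | succ m ih =>
      intro h
      have h3 := ih (by omega)
      have h4 : i - m = (i - (m + 1)) + 1 := by omega
      rw [h4] at h3
      exact h2 _ (by omega) h3
  intro j hj
  by_cases h : i ≤ j
  · have := hup (j - i) (by omega)
    rwa [show i + (j - i) = j by omega] at this
  · have := hdown (i - j) (by omega)
    rwa [show i - (i - j) = j by omega] at this

theorem eq_top_of_ww {d : ℕ} (e : Basis (Fin (d + 1)) K V) (W : Submodule K V)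
    (h : ∀ j, j ≤ d → ww e j ∈ W) : W = ⊤ := by
  rw [eq_top_iff, ← e.span_eq, Submodule.span_le]
  rintro _ ⟨i, rfl⟩
  have := h i (by omega)
  rwa [ww_of_le] at this

/-- The eigenvalues of `A` are distinct. -/
theorem eigen_injective {d : ℕ} (A : End K V) (e w : Basis (Fin (d + 1)) K V) (α : Fin (d + 1) → K)
    (hA : ∀ i, A (e i) = α i • e i) (f : ℕ → K)
    (hw : ∀ j, j ≤ d → A (ww w j) = f j • ww w j + ww w (j + 1)) : Function.Injective α := by
  classical
  intro i k hik
  by_contra hne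
  let U : ℕ → Submodule K V := fun m => Submodule.span K {x | ∃ j, j < m ∧ x = ww w j}
  have hU : ∀ m, m ≤ d → ∀ β : K, ∀ x ∈ U m, A x - β • x ∈ U (m + 1) := by
    intro m hm β x hx
    have hle : U m ≤ (U (m + 1)).comap (A - β • 1) := by
      apply Submodule.span_le.mpr
      rintro _ ⟨j, hj, rfl⟩
      rw [SetLike.mem_coe, Submodule.mem_comap, LinearMap.sub_apply, LinearMap.smul_apply,
        Module.End.one_apply, hw j (by omega)]
      apply Submodule.sub_mem
      · apply Submodule.add_mem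
        · exact Submodule.smul_mem _ _ (Submodule.subset_span ⟨j, by omega, rfl⟩)
        · exact Submodule.subset_span ⟨j + 1, by omega, rfl⟩
      · exact Submodule.smul_mem _ _ (Submodule.subset_span ⟨j, by omega, rfl⟩)
    have := hle hx
    simpa using this
  have hmain : ∀ s : Finset (Fin (d + 1)), s.card ≤ d →
      Polynomial.aeval A (∏ j ∈ s, (Polynomial.X - Polynomial.C (α j))) (ww w 0) - ww w s.card
        ∈ U s.card := by
    intro s
    induction s using Finset.induction_on with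
    | empty => intro _; simp
    | insert b s hb ih =>
      intro hs
      rw [Finset.card_insert_of_notMem hb] at hs ⊢
      have h1 := ih (by omega)
      rw [Finset.prod_insert hb, map_mul, Module.End.mul_apply]
      set y := Polynomial.aeval A (∏ j ∈ s, (Polynomial.X - Polynomial.C (α j))) (ww w 0) with hy
      have h2 := hU _ (by omega) (α b) _ h1
      have h3 : (Polynomial.aeval A (Polynomial.X - Polynomial.C (α b))) y = A y - α b • y := by
        simp
      rw [h3]
      have h4 : A y - α b • y - ww w (s.card + 1) =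
          (A (y - ww w s.card) - α b • (y - ww w s.card)) +
            (f s.card - α b) • ww w s.card := by
        rw [map_sub, hw _ (by omega)]
        module
      rw [h4]
      exact Submodule.add_mem _ h2
        (Submodule.smul_mem _ _ (Submodule.subset_span ⟨s.card, by omega, rfl⟩))
  have h5 := hmain (Finset.univ.erase i) (by simp)
  have h6 : Polynomial.aeval A (∏ j ∈ Finset.univ.erase i, (Polynomial.X - Polynomial.C (α j))) = 0 := by
    apply e.ext
    intro l
    rw [aeval_eigen A _ _ _ (hA l), LinearMap.zero_apply]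
    have : Polynomial.eval (α l) (∏ j ∈ Finset.univ.erase i, (Polynomial.X - Polynomial.C (α j))) = 0 := by
      rw [Polynomial.eval_prod]
      by_cases hl : l = i
      · apply Finset.prod_eq_zero (i := k)
        · simp [Ne.symm hne]
        · simp [hl, hik]
      · apply Finset.prod_eq_zero (i := l)
        · simp [hl]
        · simp
    rw [this, zero_smul]
  rw [h6] at h5
  have hcard : (Finset.univ.erase i : Finset (Fin (d + 1))).card = d := by simp
  rw [hcard, LinearMap.zero_apply, zero_sub, Submodule.neg_mem_iff] at h5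
  have h7 : w ⟨d, by omega⟩ ∈ Submodule.span K (w '' {j | j ≠ ⟨d, by omega⟩}) := by
    have h8 : ww w d = w ⟨d, by omega⟩ := by rw [ww, dif_pos (by omega)]
    rw [← h8]
    refine Submodule.span_mono ?_ h5
    rintro _ ⟨j, hj, rfl⟩
    refine ⟨⟨j, by omega⟩, ?_, ?_⟩
    · simp only [ne_eq, Set.mem_ofPred_eq, Fin.mk.injEq]
      omega
    · rw [ww, dif_pos (by omega)]
  exact w.linearIndependent.notMem_span_image (s := {j | j ≠ ⟨d, by omega⟩}) (by simp) h7

/-- Leonard pairs are irreducible; consequently the scalars of the second split decomposition do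
not vanish. -/
theorem split_ne_zero {d : ℕ} (A B : End K V) (hL : IsLeonardPair d A B)
    (w : Basis (Fin (d + 1)) K V) (f g h : ℕ → K)
    (hA : ∀ j, j ≤ d → A (ww w j) = f j • ww w j + ww w (j + 1))
    (hB : ∀ j, j + 1 ≤ d → B (ww w (j + 1)) = g (j + 1) • ww w (j + 1) + h (j + 1) • ww w j)
    (m : ℕ) (hm : m + 1 ≤ d) : h (m + 1) ≠ 0 := by
  intro h0
  obtain ⟨⟨e, he1, he2⟩, _⟩ := hL
  have hA1 : ∀ i, A (e i) = (LinearMap.toMatrix e e A i i) • e i := by
    intro i
    apply e.ext_elem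
    intro k
    rw [map_smul, e.repr_self, Finsupp.smul_apply, smul_eq_mul]
    by_cases hik : k = i
    · subst hik
      rw [Finsupp.single_eq_same, mul_one, LinearMap.toMatrix_apply]
    · rw [Finsupp.single_eq_of_ne (by simpa using hik), mul_zero]
      have : LinearMap.toMatrix e e A k i = 0 := he1 hik
      rwa [LinearMap.toMatrix_apply] at this
  have hinj := eigen_injective A e w _ hA1 f hA
  let W : Submodule K V := Submodule.span K {x | ∃ j, m + 1 ≤ j ∧ j ≤ d ∧ x = ww w j}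
  have hWA : ∀ x ∈ W, A x ∈ W := by
    intro x hx
    have hle : W ≤ W.comap A := by
      apply Submodule.span_le.mpr
      rintro _ ⟨j, hj, hjd, rfl⟩
      rw [SetLike.mem_coe, Submodule.mem_comap, hA j hjd]
      apply Submodule.add_mem
      · exact Submodule.smul_mem _ _ (Submodule.subset_span ⟨j, hj, hjd, rfl⟩)
      · by_cases hj2 : j + 1 ≤ d
        · exact Submodule.subset_span ⟨j + 1, by omega, hj2, rfl⟩
        · rw [ww_gt w (by omega)]
          exact Submodule.zero_mem _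
    exact hle hx
  have hWB : ∀ x ∈ W, B x ∈ W := by
    intro x hx
    have hle : W ≤ W.comap B := by
      apply Submodule.span_le.mpr
      rintro _ ⟨j, hj, hjd, rfl⟩
      obtain ⟨j, rfl⟩ : ∃ i, j = i + 1 := ⟨j - 1, by omega⟩
      rw [SetLike.mem_coe, Submodule.mem_comap, hB j hjd]
      apply Submodule.add_mem
      · exact Submodule.smul_mem _ _ (Submodule.subset_span ⟨j + 1, hj, hjd, rfl⟩)
      · by_cases hj2 : m = j
        · subst hj2
          rw [h0, zero_smul]
          exact Submodule.zero_mem _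
        · exact Submodule.smul_mem _ _ (Submodule.subset_span ⟨j, by omega, by omega, rfl⟩)
    exact hle hx
  have hd : ww w d ∈ W := Submodule.subset_span ⟨d, hm, le_refl _, rfl⟩
  have hne : ww w d ≠ 0 := ww_ne w (le_refl _)
  obtain ⟨i, hi⟩ : ∃ i, e.repr (ww w d) i ≠ 0 := by
    by_contra hcon
    push Not at hcon
    apply hne
    apply e.ext_elem
    intro i
    rw [hcon i, map_zero]
    rfl
  have hi2 : e i ∈ W := eigen_mem e A _ hA1 hinj W hWA _ hd i hi
  have hall : ∀ j, j ≤ d → ww e j ∈ W := by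
    apply all_mem (d := d) (fun j => ww e j ∈ W) _ _ (i : ℕ) (by omega)
    · rw [ww_of_le]; exact hi2
    · intro j hj hj2
      have h1 := hWB _ hj2
      have h2 : ww e j = e ⟨j, by omega⟩ := by rw [ww, dif_pos (by omega)]
      have h3 : ww e (j + 1) = e ⟨j + 1, by omega⟩ := by rw [ww, dif_pos (by omega)]
      rw [h3]
      apply eigen_mem e A _ hA1 hinj W hWA _ h1
      rw [h2, ← LinearMap.toMatrix_apply]
      exact (he2 _ _).2 (Or.inr rfl)
    · intro j hj hj2
      have h1 := hWB _ hj2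
      have h2 : ww e j = e ⟨j, by omega⟩ := by rw [ww, dif_pos (by omega)]
      have h3 : ww e (j + 1) = e ⟨j + 1, by omega⟩ := by rw [ww, dif_pos (by omega)]
      rw [h2]
      apply eigen_mem e A _ hA1 hinj W hWA _ h1
      rw [h3, ← LinearMap.toMatrix_apply]
      exact (he2 _ _).2 (Or.inl rfl)
  have htop := eq_top_of_ww e W hall
  have h0W : ww w 0 ∈ W := by rw [htop]; trivial
  have h7 : w ⟨0, by omega⟩ ∈ Submodule.span K (w '' {j | j ≠ ⟨0, by omega⟩}) := by
    have h8 : ww w 0 = w ⟨0, by omega⟩ := by rw [ww, dif_pos (by omega)]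
    rw [← h8]
    refine Submodule.span_mono ?_ h0W
    rintro _ ⟨j, hj, hjd, rfl⟩
    refine ⟨⟨j, by omega⟩, ?_, ?_⟩
    · simp only [ne_eq, Set.mem_ofPred_eq, Fin.mk.injEq]
      omega
    · rw [ww, dif_pos (by omega)]
  exact w.linearIndependent.notMem_span_image (s := {j | j ≠ ⟨0, by omega⟩}) (by simp) h7

/-- `q^{d-2j}` and `q^{2j-d}` in terms of `q^d` and `q^j`. -/
theorem pow_x (d j : ℕ) (q : K) (hq : q ≠ 0) : q ^ ((d : ℤ) - 2 * j) = q ^ d / (q ^ j) ^ 2 := by
  rw [zpow_sub₀ hq, zpow_natCast]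
  congr 1
  rw [show (2 * (j : ℤ)) = ((j * 2 : ℕ) : ℤ) by push_cast; ring, zpow_natCast, pow_mul]

theorem pow_y (d j : ℕ) (q : K) (hq : q ≠ 0) : q ^ (2 * (j : ℤ) - d) = (q ^ j) ^ 2 / q ^ d := by
  rw [zpow_sub₀ hq, zpow_natCast]
  congr 1
  rw [show (2 * (j : ℤ)) = ((j * 2 : ℕ) : ℤ) by push_cast; ring, zpow_natCast, pow_mul]

/-- The inverse of the subdiagonal entry of `Y` between `j` and `j + 1`. -/
def gg (d : ℕ) (q a b c : K) (j : ℕ) : K := a⁻¹ - c / b * (q ^ d / ((q ^ j) ^ 2 * q))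

/-- The product of the off-diagonal entries of `Y` and `Z` between `j` and `j + 1`. -/
def tau (d : ℕ) (q : K) (j : ℕ) : K := (1 - (q ^ j) ^ 2 / (q ^ d) ^ 2) * (1 - (q ^ j) ^ 2 * q ^ 2)

theorem phi2_eq (d : ℕ) (q a b c : K) (hq : q ≠ 0) (ha : a ≠ 0) (hb : b ≠ 0) (hc : c ≠ 0) (j : ℕ) :
    phi2 d q a b c (j + 1) =
      tau d q j * gg d q a b c j * (b - a / c * (q ^ d / ((q ^ j) ^ 2 * q))) := by
  have hD : q ^ d ≠ 0 := pow_ne_zero _ hq
  have hE : q ^ j ≠ 0 := pow_ne_zero _ hq
  have e1 : q ^ (-((j + 1 : ℕ) : ℤ)) = (q ^ j * q)⁻¹ := by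
    rw [zpow_neg, zpow_natCast, pow_succ]
  have e2 : q ^ (((j + 1 : ℕ) : ℤ)) = q ^ j * q := by
    rw [zpow_natCast, pow_succ]
  have e3 : q ^ ((d : ℤ) - ((j + 1 : ℕ) : ℤ) + 1) = q ^ d / q ^ j := by
    rw [show (d : ℤ) - ((j + 1 : ℕ) : ℤ) + 1 = (d : ℤ) - (j : ℤ) by push_cast; ring,
      zpow_sub₀ hq, zpow_natCast, zpow_natCast]
  have e4 : q ^ (((j + 1 : ℕ) : ℤ) - d - 1) = q ^ j / q ^ d := by
    rw [show ((j + 1 : ℕ) : ℤ) - d - 1 = (j : ℤ) - (d : ℤ) by push_cast; ring,
      zpow_sub₀ hq, zpow_natCast, zpow_natCast]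
  rw [phi2, uu, rr, rr, e1, e2, e3, e4, tau, gg, pow_succ]
  field_simp
  ring

theorem lam_a (d j : ℕ) (hj : j ≤ d) (q a : K) (hq : q ≠ 0) :
    lam d q a (d - j) = a * (q ^ d / (q ^ j) ^ 2) + a⁻¹ * ((q ^ j) ^ 2 / q ^ d) := by
  rw [lam, show (2 * ((d - j : ℕ) : ℤ) - d) = (d : ℤ) - 2 * j by push_cast [hj]; ring,
    show ((d : ℤ) - 2 * ((d - j : ℕ) : ℤ)) = 2 * (j : ℤ) - d by push_cast [hj]; ring,
    pow_x _ _ _ hq, pow_y _ _ _ hq]

theorem lam_b (d j : ℕ) (q b : K) (hq : q ≠ 0) :
    lam d q b j = b * ((q ^ j) ^ 2 / q ^ d) + b⁻¹ * (q ^ d / (q ^ j) ^ 2) := by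
  rw [lam, pow_x _ _ _ hq, pow_y _ _ _ hq]

section Operators

variable {d : ℕ} (e : Basis (Fin (d + 1)) K V) (q a b c : K)

/-- The action of `X`. -/
noncomputable def xop : End K V :=
  e.constr K (fun i => (q ^ d / (q ^ (i : ℕ)) ^ 2) • ww e i)

/-- The action of `X⁻¹`. -/
noncomputable def xinv : End K V :=
  e.constr K (fun i => ((q ^ (i : ℕ)) ^ 2 / q ^ d) • ww e i)

/-- The action of `Y`. -/
noncomputable def yop : End K V :=
  e.constr K (fun i => ((q ^ (i : ℕ)) ^ 2 / q ^ d) • ww e i + (gg d q a b c i)⁻¹ • ww e (i + 1))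

/-- The action of `Z`. -/
noncomputable def zop : End K V :=
  e.constr K (fun i => ((q ^ (i : ℕ)) ^ 2 / q ^ d) • ww e i +
    (if (i : ℕ) = 0 then 0 else tau d q (i - 1) * gg d q a b c (i - 1)) • ww e (i - 1))

theorem tau_self (hq : q ≠ 0) : tau d q d = 0 := by
  have : q ^ d ≠ 0 := pow_ne_zero _ hq
  rw [tau, div_self (pow_ne_zero 2 this), sub_self, zero_mul]

theorem x_apply (j : ℕ) : xop e q (ww e j) = (q ^ d / (q ^ j) ^ 2) • ww e j := by
  by_cases h : j < d + 1
  · have h2 : ww e j = e ⟨j, h⟩ := by rw [ww, dif_pos h]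
    rw [h2, xop, e.constr_basis, ← h2]
  · rw [ww_gt e (by omega), map_zero, smul_zero]

theorem xinv_apply (j : ℕ) : xinv e q (ww e j) = ((q ^ j) ^ 2 / q ^ d) • ww e j := by
  by_cases h : j < d + 1
  · have h2 : ww e j = e ⟨j, h⟩ := by rw [ww, dif_pos h]
    rw [h2, xinv, e.constr_basis, ← h2]
  · rw [ww_gt e (by omega), map_zero, smul_zero]

theorem y_apply (j : ℕ) : yop e q a b c (ww e j) =
    ((q ^ j) ^ 2 / q ^ d) • ww e j + (gg d q a b c j)⁻¹ • ww e (j + 1) := by
  by_cases h : j < d + 1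
  · have h2 : ww e j = e ⟨j, h⟩ := by rw [ww, dif_pos h]
    rw [h2, yop, e.constr_basis, ← h2]
  · rw [ww_gt e (show d < j by omega), ww_gt e (show d < j + 1 by omega), map_zero, smul_zero,
      smul_zero, add_zero]

theorem z_apply_zero : zop e q a b c (ww e 0) = (1 / q ^ d) • ww e 0 := by
  have h2 : ww e 0 = e ⟨0, by omega⟩ := by rw [ww, dif_pos (by omega)]
  rw [h2, zop, e.constr_basis, ← h2]
  simp

theorem z_apply_succ (hq : q ≠ 0) (j : ℕ) : zop e q a b c (ww e (j + 1)) =
    ((q ^ j) ^ 2 * q ^ 2 / q ^ d) • ww e (j + 1) + (tau d q j * gg d q a b c j) • ww e j := by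
  by_cases h : j + 1 < d + 1
  · have h2 : ww e (j + 1) = e ⟨j + 1, h⟩ := by rw [ww, dif_pos h]
    rw [h2, zop, e.constr_basis, ← h2]
    simp only [Nat.add_eq_zero_iff, one_ne_zero, and_false, if_false, Nat.add_sub_cancel]
    rw [pow_succ q j, mul_pow]
  · rw [ww_gt e (show d < j + 1 by omega), map_zero, smul_zero, zero_add]
    by_cases h3 : j = d
    · subst h3
      rw [tau_self q hq, zero_mul, zero_smul]
    · rw [ww_gt e (by omega), smul_zero]

end Operators

/-- **Theorem.** Let `a, b, c, q` be nonzero with `q⁴ ≠ 1` and let `A, B` be a Leonard pair on the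
vector space `V` (of dimension `d + 1`) with parameter array `θ_i = λ_i(a)`, `θ*_i = λ_i(b)`,
`φ_i`, `ϕ_i` as in the problem. Then `V` carries an irreducible `U_q(sl₂)`-module structure such
that `A`, `B` and `A^ε` act as stated in the problem. -/
theorem result (K : Type u) [Field K] (V : Type v) [AddCommGroup V] [Module K V] (d : ℕ)
    (a b c q : K) (ha : a ≠ 0) (hb : b ≠ 0) (hc : c ≠ 0)
    (hq : q ≠ 0) (hq4 : q ^ 4 ≠ 1) (A B : End K V) (hL : IsLeonardPair d A B)
    (hP : HasParameterArray d A B (lam d q a) (lam d q b) (phi1 d q a b c) (phi2 d q a b c)) :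
    ∃ X Xi Y Z : End K V, IsIrreducibleAction q X Xi Y Z ∧
      A = a • X + a⁻¹ • Y + (c / b * (q - q⁻¹)⁻¹) • (X * Y - Y * X) ∧
      B = b • Z + b⁻¹ • X + (a / c * (q - q⁻¹)⁻¹) • (Z * X - X * Z) ∧
      aEps d q a b c A B = c • Y + c⁻¹ • Z + (b / a * (q - q⁻¹)⁻¹) • (Y * Z - Z * Y) := by
  obtain ⟨e, he1, he2⟩ := hP.2
  have hA0 := apply_lower e A _ he1
  have hA : ∀ j, j ≤ d → A (ww e j) =
      (a * (q ^ d / (q ^ j) ^ 2) + a⁻¹ * ((q ^ j) ^ 2 / q ^ d)) • ww e j + ww e (j + 1) := by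
    intro j hj
    rw [hA0 j hj, lam_a d j hj q a hq]
  have hB0 : B (ww e 0) = (b * (1 / q ^ d) + b⁻¹ * (q ^ d / 1)) • ww e 0 := by
    rw [apply_upper_zero e B _ _ he2, lam_b d 0 q b hq]
    simp
  have hne := split_ne_zero A B hL e _ _ _ hA0 (apply_upper_succ e B _ _ he2)
  have hD : q ^ d ≠ 0 := pow_ne_zero _ hq
  have hE : ∀ j : ℕ, q ^ j ≠ 0 := fun j => pow_ne_zero _ hq
  -- the scalars that do not vanish
  have hprod : ∀ j, j < d → tau d q j ≠ 0 ∧ gg d q a b c j ≠ 0 := by
    intro j hj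
    have h1 := hne j (by omega)
    rw [phi2_eq d q a b c hq ha hb hc] at h1
    exact ⟨fun h => h1 (by rw [h]; ring), fun h => h1 (by rw [h]; ring)⟩
  have hBs : ∀ j, j ≤ d → B (ww e (j + 1)) =
      (b * ((q ^ j) ^ 2 * q ^ 2 / q ^ d) + b⁻¹ * (q ^ d / ((q ^ j) ^ 2 * q ^ 2))) • ww e (j + 1) +
      (tau d q j * gg d q a b c j * (b - a / c * (q ^ d / ((q ^ j) ^ 2 * q)))) • ww e j := by
    intro j hj
    by_cases hjd : j = d
    · subst hjd
      rw [ww_gt e (show j < j + 1 by omega), map_zero, smul_zero, tau_self q hq]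
      simp
    · rw [apply_upper_succ e B _ _ he2 j (by omega), lam_b d _ q b hq,
        phi2_eq d q a b c hq ha hb hc, pow_succ q j, mul_pow]
  have hGw : ∀ j, j ≤ d → ∀ x : K,
      (x * gg d q a b c j * (gg d q a b c j)⁻¹) • ww e (j + 1) = x • ww e (j + 1) := by
    intro j hj x
    by_cases hjd : j = d
    · rw [ww_gt e (by omega), smul_zero, smul_zero]
    · rw [mul_assoc, mul_inv_cancel₀ (hprod j (by omega)).2, mul_one]
  have hGT : ∀ j, j ≤ d → gg d q a b c j * (gg d q a b c j)⁻¹ * tau d q j = tau d q j := by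
    intro j hj
    by_cases hjd : j = d
    · subst hjd
      rw [tau_self q hq, mul_zero]
    · rw [mul_inv_cancel₀ (hprod j (by omega)).2, one_mul]
  have hq2 : q ^ 2 - 1 ≠ 0 := by
    intro h
    apply hq4
    have : q ^ 2 = 1 := by linear_combination h
    rw [show (4 : ℕ) = 2 * 2 from rfl, pow_mul, this, one_pow]
  have hq2' : q - q⁻¹ ≠ 0 := by
    intro h
    apply hq2
    have : q * (q - q⁻¹) = 0 := by rw [h, mul_zero]
    rw [mul_sub, mul_inv_cancel₀ hq] at this
    linear_combination this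
  have hq4' : q ^ 2 - (q ^ 2)⁻¹ ≠ 0 := by
    intro h
    apply hq4
    have : q ^ 2 * (q ^ 2 - (q ^ 2)⁻¹) = 0 := by rw [h, mul_zero]
    rw [mul_sub, mul_inv_cancel₀ (pow_ne_zero 2 hq)] at this
    linear_combination this
  -- the operators
  set X := xop e q with hX
  set Xi := xinv e q with hXi
  set Y := yop e q a b c with hY
  set Z := zop e q a b c with hZ
  have hXw : ∀ j, X (ww e j) = (q ^ d / (q ^ j) ^ 2) • ww e j := x_apply e q
  have hXiw : ∀ j, Xi (ww e j) = ((q ^ j) ^ 2 / q ^ d) • ww e j := xinv_apply e q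
  have hYw : ∀ j, Y (ww e j) = ((q ^ j) ^ 2 / q ^ d) • ww e j +
      (gg d q a b c j)⁻¹ • ww e (j + 1) := y_apply e q a b c
  have hZ0 : Z (ww e 0) = (1 / q ^ d) • ww e 0 := z_apply_zero e q a b c
  have hZs : ∀ j, Z (ww e (j + 1)) = ((q ^ j) ^ 2 * q ^ 2 / q ^ d) • ww e (j + 1) +
      (tau d q j * gg d q a b c j) • ww e j := z_apply_succ e q a b c hq
  -- products
  have hGG : ∀ j, j ≤ d → (gg d q a b c j)⁻¹ * (tau d q j * gg d q a b c j) = tau d q j := by
    intro j hj
    rw [← mul_assoc, mul_comm, ← mul_assoc]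
    exact hGT j hj
  have hXY : ∀ j, (X * Y) (ww e j) = ww e j +
      (q ^ d / ((q ^ j) ^ 2 * q ^ 2) * (gg d q a b c j)⁻¹) • ww e (j + 1) := by
    intro j
    have h1 := hE j
    rw [Module.End.mul_apply, hYw, map_add, map_smul, map_smul, hXw, hXw, smul_smul, smul_smul,
      pow_succ q j, mul_pow]
    congr 1
    · rw [show (q ^ j) ^ 2 / q ^ d * (q ^ d / (q ^ j) ^ 2) = 1 by field_simp, one_smul]
    · rw [mul_comm]
  have hYX : ∀ j, (Y * X) (ww e j) = ww e j +
      (q ^ d / (q ^ j) ^ 2 * (gg d q a b c j)⁻¹) • ww e (j + 1) := by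
    intro j
    have h1 := hE j
    rw [Module.End.mul_apply, hXw, map_smul, hYw, smul_add, smul_smul, smul_smul]
    congr 1
    rw [show q ^ d / (q ^ j) ^ 2 * ((q ^ j) ^ 2 / q ^ d) = 1 by field_simp, one_smul]
  have hYZ0 : (Y * Z) (ww e 0) = (1 / (q ^ d) ^ 2) • ww e 0 +
      (1 / q ^ d * (gg d q a b c 0)⁻¹) • ww e 1 := by
    rw [Module.End.mul_apply, hZ0, map_smul, hYw, smul_add, smul_smul, smul_smul]
    congr 2
    simp [pow_two]
  have hZY0 : (Z * Y) (ww e 0) = (1 / (q ^ d) ^ 2 + tau d q 0) • ww e 0 +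
      (q ^ 2 / q ^ d * (gg d q a b c 0)⁻¹) • ww e 1 := by
    rw [Module.End.mul_apply, hYw, map_add, map_smul, map_smul, hZ0, hZs, smul_add, smul_smul,
      smul_smul, smul_smul, hGG 0 (by omega)]
    simp only [pow_zero, one_pow, one_mul, zero_add]
    module
  have hYZs : ∀ j, j < d → (Y * Z) (ww e (j + 1)) =
      (((q ^ j) ^ 2 * q ^ 2 / q ^ d) ^ 2 + tau d q j) • ww e (j + 1) +
      ((q ^ j) ^ 2 * q ^ 2 / q ^ d * (gg d q a b c (j + 1))⁻¹) • ww e (j + 2) +
      (tau d q j * gg d q a b c j * ((q ^ j) ^ 2 / q ^ d)) • ww e j := by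
    intro j hj
    rw [Module.End.mul_apply, hZs, map_add, map_smul, map_smul, hYw, hYw, smul_add, smul_add,
      smul_smul, smul_smul, smul_smul, smul_smul]
    have h2 : tau d q j * gg d q a b c j * (gg d q a b c j)⁻¹ = tau d q j := by
      rw [mul_assoc, mul_inv_cancel₀ (hprod j hj).2, mul_one]
    rw [h2, pow_succ q j]
    module
  have hZYs : ∀ j, j < d → (Z * Y) (ww e (j + 1)) =
      (((q ^ j) ^ 2 * q ^ 2 / q ^ d) ^ 2 + tau d q (j + 1)) • ww e (j + 1) +
      ((q ^ j) ^ 2 * q ^ 4 / q ^ d * (gg d q a b c (j + 1))⁻¹) • ww e (j + 2) +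
      ((q ^ j) ^ 2 * q ^ 2 / q ^ d * (tau d q j * gg d q a b c j)) • ww e j := by
    intro j hj
    rw [Module.End.mul_apply, hYw, map_add, map_smul, map_smul, hZs, hZs, smul_add, smul_add,
      smul_smul, smul_smul, smul_smul, smul_smul, hGG (j + 1) (by omega), pow_succ q j]
    module
  have hZX0 : (Z * X) (ww e 0) = ww e 0 := by
    rw [Module.End.mul_apply, hXw, map_smul, hZ0, smul_smul]
    rw [show q ^ d / (q ^ 0) ^ 2 * (1 / q ^ d) = 1 by simp [hD], one_smul]
  have hXZ0 : (X * Z) (ww e 0) = ww e 0 := by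
    rw [Module.End.mul_apply, hZ0, map_smul, hXw, smul_smul]
    rw [show 1 / q ^ d * (q ^ d / (q ^ 0) ^ 2) = 1 by simp [hD], one_smul]
  have hZXs : ∀ j, (Z * X) (ww e (j + 1)) = ww e (j + 1) +
      (q ^ d / ((q ^ j) ^ 2 * q ^ 2) * (tau d q j * gg d q a b c j)) • ww e j := by
    intro j
    have h1 := hE j
    rw [Module.End.mul_apply, hXw, map_smul, hZs, smul_add, smul_smul, smul_smul, pow_succ q j,
      mul_pow]
    congr 1
    rw [show q ^ d / ((q ^ j) ^ 2 * q ^ 2) * ((q ^ j) ^ 2 * q ^ 2 / q ^ d) = 1 by field_simp,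
      one_smul]
  have hXZs : ∀ j, (X * Z) (ww e (j + 1)) = ww e (j + 1) +
      (q ^ d / ((q ^ j) ^ 2) * (tau d q j * gg d q a b c j)) • ww e j := by
    intro j
    have h1 := hE j
    rw [Module.End.mul_apply, hZs, map_add, map_smul, map_smul, hXw, hXw, smul_smul, smul_smul,
      pow_succ q j, mul_pow]
    rw [show (q ^ j) ^ 2 * q ^ 2 / q ^ d * (q ^ d / ((q ^ j) ^ 2 * q ^ 2)) = 1 by field_simp,
      one_smul, mul_comm (q ^ d / (q ^ j) ^ 2)]
  refine ⟨X, Xi, Y, Z, ⟨?_, ?_, ?_, ?_, ?_, ?_, ?_⟩, ?_, ?_, ?_⟩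
  · -- X X⁻¹ = 1
    apply ext_ww e
    intro j hj
    have h1 := hE j
    rw [Module.End.mul_apply, hXiw, map_smul, hXw, smul_smul, Module.End.one_apply,
      show (q ^ j) ^ 2 / q ^ d * (q ^ d / (q ^ j) ^ 2) = 1 by field_simp, one_smul]
  · apply ext_ww e
    intro j hj
    have h1 := hE j
    rw [Module.End.mul_apply, hXw, map_smul, hXiw, smul_smul, Module.End.one_apply,
      show q ^ d / (q ^ j) ^ 2 * ((q ^ j) ^ 2 / q ^ d) = 1 by field_simp, one_smul]
  · -- q X Y - q⁻¹ Y X = q - q⁻¹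
    apply ext_ww e
    intro j hj
    have h1 := hE j
    rw [LinearMap.sub_apply, LinearMap.smul_apply, LinearMap.smul_apply, LinearMap.smul_apply,
      Module.End.one_apply, hXY, hYX]
    generalize (gg d q a b c j)⁻¹ = g
    match_scalars <;> field_simp <;> ring
  · -- q Y Z - q⁻¹ Z Y = q - q⁻¹
    apply ext_ww e
    intro j hj
    rcases j with _ | j
    · rw [LinearMap.sub_apply, LinearMap.smul_apply, LinearMap.smul_apply, LinearMap.smul_apply,
        Module.End.one_apply, hYZ0, hZY0, tau]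
      generalize (gg d q a b c 0)⁻¹ = g
      simp only [pow_zero]
      match_scalars <;> field_simp <;> ring
    · have h1 := hE j
      rw [LinearMap.sub_apply, LinearMap.smul_apply, LinearMap.smul_apply, LinearMap.smul_apply,
        Module.End.one_apply, hYZs j (by omega), hZYs j (by omega), tau, tau, pow_succ q j]
      generalize (gg d q a b c (j + 1))⁻¹ = g
      generalize (gg d q a b c j) = g'
      match_scalars <;> field_simp <;> ring
  · -- q Z X - q⁻¹ X Z = q - q⁻¹
    apply ext_ww e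
    intro j hj
    rcases j with _ | j
    · rw [LinearMap.sub_apply, LinearMap.smul_apply, LinearMap.smul_apply, LinearMap.smul_apply,
        Module.End.one_apply, hZX0, hXZ0, sub_smul]
    · have h1 := hE j
      rw [LinearMap.sub_apply, LinearMap.smul_apply, LinearMap.smul_apply, LinearMap.smul_apply,
        Module.End.one_apply, hZXs, hXZs]
      generalize (tau d q j * gg d q a b c j) = g
      match_scalars <;> field_simp <;> ring
  · exact ⟨⟨ww e 0, 0, ww_ne e (by omega)⟩⟩
  · -- irreducibility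
    intro W hW
    by_cases hbot : W = ⊥
    · exact Or.inl hbot
    right
    obtain ⟨x, hx, hx0⟩ := Submodule.exists_mem_ne_zero_of_ne_bot hbot
    have hXe : ∀ i : Fin (d + 1), X (e i) = (q ^ d / (q ^ (i : ℕ)) ^ 2) • e i := by
      intro i
      rw [← ww_of_le, hXw]
    have hpow : ∀ m, m < d → q ^ (2 * (m + 1)) ≠ 1 := by
      intro m hm h
      apply (hprod m hm).1
      have h2 : (q ^ m) ^ 2 * q ^ 2 = 1 := by rw [← h]; ring
      rw [tau, h2]; ring
    have hinj : Function.Injective (fun i : Fin (d + 1) => q ^ d / (q ^ (i : ℕ)) ^ 2) := by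
      have key : ∀ i k : ℕ, i < k → k ≤ d → (q ^ i) ^ 2 ≠ (q ^ k) ^ 2 := by
        intro i k hik hk h
        apply hpow (k - i - 1) (by omega)
        have h3 : (q ^ k) ^ 2 = (q ^ i) ^ 2 * q ^ (2 * (k - i - 1 + 1)) := by
          rw [← pow_mul, ← pow_mul, ← pow_add]
          congr 1
          omega
        rw [h3] at h
        have h4 : (q ^ i) ^ 2 ≠ 0 := pow_ne_zero 2 (hE i)
        field_simp at h
        exact h.symm
      intro i k hik
      have h2 : (q ^ (i : ℕ)) ^ 2 = (q ^ (k : ℕ)) ^ 2 := by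
        have h3 := hE i
        have h4 := hE k
        simp only at hik
        field_simp at hik
        exact hik.symm
      rcases lt_trichotomy (i : ℕ) (k : ℕ) with h | h | h
      · exact absurd h2 (key _ _ h (by omega))
      · exact Fin.ext h
      · exact absurd h2.symm (key _ _ h (by omega))
    obtain ⟨i, hi⟩ : ∃ i, e.repr x i ≠ 0 := by
      by_contra hcon
      push Not at hcon
      apply hx0
      apply e.ext_elem
      intro i
      rw [hcon i, map_zero]
      rfl
    have hi2 : e i ∈ W := eigen_mem e X _ hXe hinj W (fun y hy => (hW y hy).1) x hx i hi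
    apply eq_top_of_ww e
    apply all_mem (fun j => ww e j ∈ W) _ _ (i : ℕ) (by omega)
    · show ww e i ∈ W
      rw [ww_of_le]; exact hi2
    · intro j hj hjW
      have h1 := (hW _ hjW).2.2.1
      rw [hYw] at h1
      have h2 := W.sub_mem h1 (W.smul_mem ((q ^ j) ^ 2 / q ^ d) hjW)
      rw [add_sub_cancel_left] at h2
      have h3 := W.smul_mem (gg d q a b c j) h2
      rwa [smul_smul, mul_inv_cancel₀ (hprod j hj).2, one_smul] at h3
    · intro j hj hjW
      have h1 := (hW _ hjW).2.2.2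
      rw [hZs] at h1
      have h2 := W.sub_mem h1 (W.smul_mem ((q ^ j) ^ 2 * q ^ 2 / q ^ d) hjW)
      rw [add_sub_cancel_left] at h2
      have h4 : tau d q j * gg d q a b c j ≠ 0 := mul_ne_zero (hprod j hj).1 (hprod j hj).2
      have h3 := W.smul_mem (tau d q j * gg d q a b c j)⁻¹ h2
      rwa [smul_smul, inv_mul_cancel₀ h4, one_smul] at h3
  · -- A
    apply ext_ww e
    intro j hj
    have h1 := hE j
    rw [LinearMap.add_apply, LinearMap.add_apply, LinearMap.smul_apply, LinearMap.smul_apply,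
      LinearMap.smul_apply, LinearMap.sub_apply, hXY, hYX, hXw, hYw, hA j hj]
    have h2 := hGw j hj 1
    rw [one_mul, one_smul] at h2
    have h3 : (gg d q a b c j * (gg d q a b c j)⁻¹) =
        a⁻¹ * (gg d q a b c j)⁻¹ + (c / b * (q - q⁻¹)⁻¹) *
          (q ^ d / ((q ^ j) ^ 2 * q ^ 2) * (gg d q a b c j)⁻¹ -
            q ^ d / (q ^ j) ^ 2 * (gg d q a b c j)⁻¹) := by
      generalize hg : (gg d q a b c j)⁻¹ = g
      have hq2'' : q ^ 2 - 1 ≠ 0 := hq2
      rw [gg, show (q - q⁻¹)⁻¹ = q / (q ^ 2 - 1) by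
        rw [show q - q⁻¹ = (q ^ 2 - 1) / q by field_simp, inv_div]]
      field_simp
      ring
    rw [h3] at h2
    conv_lhs => rw [← h2]
    module
  · -- B
    apply ext_ww e
    intro j hj
    have h1 := hE j
    rcases j with _ | j
    · rw [LinearMap.add_apply, LinearMap.add_apply, LinearMap.smul_apply, LinearMap.smul_apply,
        LinearMap.smul_apply, LinearMap.sub_apply, hZX0, hXZ0, hXw, hZ0, hB0, sub_self, smul_zero,
        add_zero]
      simp only [pow_zero, one_pow]
      module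
    · rw [LinearMap.add_apply, LinearMap.add_apply, LinearMap.smul_apply, LinearMap.smul_apply,
        LinearMap.smul_apply, LinearMap.sub_apply, hZXs, hXZs, hXw, hZs, hBs j (by omega),
        pow_succ q j, show (q - q⁻¹)⁻¹ = q / (q ^ 2 - 1) by
          rw [show q - q⁻¹ = (q ^ 2 - 1) / q by field_simp, inv_div]]
      have h1 := hE j
      generalize tau d q j * gg d q a b c j = g
      match_scalars <;> field_simp <;> ring
  · -- A^ε
    rw [aEps, inv_smul_eq_iff₀ hq4', show (q - q⁻¹)⁻¹ = q / (q ^ 2 - 1) by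
      rw [show q - q⁻¹ = (q ^ 2 - 1) / q by field_simp, inv_div]]
    apply ext_ww e
    intro j hj
    rcases j with _ | j
    · have h2 := hGw 0 hj ((q ^ 2 - (q ^ 2)⁻¹) * (-(b * q / q ^ d)))
      have hA' := hA 0 hj
      have hB1 := hBs 0 hj
      simp only [pow_zero, one_pow, one_mul, zero_add] at hA' hB1 h2
      have hAB : (A * B) (ww e 0) = ((b * (1 / q ^ d) + b⁻¹ * (q ^ d / 1)) *
          (a * (q ^ d / 1) + a⁻¹ * (1 / q ^ d))) • ww e 0 +
          (b * (1 / q ^ d) + b⁻¹ * (q ^ d / 1)) • ww e 1 := by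
        rw [Module.End.mul_apply, hB0, map_smul, hA', smul_add, smul_smul]
      have hBA : (B * A) (ww e 0) = ((a * (q ^ d / 1) + a⁻¹ * (1 / q ^ d)) *
          (b * (1 / q ^ d) + b⁻¹ * (q ^ d / 1)) +
          tau d q 0 * gg d q a b c 0 * (b - a / c * (q ^ d / q))) • ww e 0 +
          (b * (q ^ 2 / q ^ d) + b⁻¹ * (q ^ d / q ^ 2)) • ww e 1 := by
        rw [Module.End.mul_apply, hA', map_add, map_smul, hB0, hB1, smul_smul]
        module
      simp only [LinearMap.add_apply, LinearMap.sub_apply, LinearMap.smul_apply,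
        Module.End.one_apply]
      rw [hAB, hBA, hYZ0, hZY0, hYw, hZ0]
      have hL : q⁻¹ • (((b * (1 / q ^ d) + b⁻¹ * (q ^ d / 1)) *
          (a * (q ^ d / 1) + a⁻¹ * (1 / q ^ d))) • ww e 0 +
          (b * (1 / q ^ d) + b⁻¹ * (q ^ d / 1)) • ww e 1) -
          q • (((a * (q ^ d / 1) + a⁻¹ * (1 / q ^ d)) *
          (b * (1 / q ^ d) + b⁻¹ * (q ^ d / 1)) +
          tau d q 0 * gg d q a b c 0 * (b - a / c * (q ^ d / q))) • ww e 0 +
          (b * (q ^ 2 / q ^ d) + b⁻¹ * (q ^ d / q ^ 2)) • ww e 1) +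
          ((q - q⁻¹) * (ss a * ss b + ss c * tt d q)) • ww e 0 =
          (((b * (1 / q ^ d) + b⁻¹ * (q ^ d / 1)) * (a * (q ^ d / 1) + a⁻¹ * (1 / q ^ d))) *
            (q⁻¹ - q) - q * (tau d q 0 * gg d q a b c 0 * (b - a / c * (q ^ d / q))) +
            (q - q⁻¹) * (ss a * ss b + ss c * tt d q)) • ww e 0 +
          ((q ^ 2 - (q ^ 2)⁻¹) * (-(b * q / q ^ d))) • ww e 1 := by
        match_scalars
        · ring
        · field_simp
          ring
      rw [hL, ← h2]
      generalize hg : (gg d q a b c 0)⁻¹ = g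
      simp only [zero_add]
      rw [tau, gg, ss, ss, ss, tt, pow_succ q d]
      simp only [pow_zero]
      match_scalars <;> field_simp <;> ring
    · have h1 := hE j
      have h2 := hGw (j + 1) hj ((q ^ 2 - (q ^ 2)⁻¹) * (-(b * ((q ^ j) ^ 2 * q ^ 2) * q / q ^ d)))
      have hA1 := hA (j + 1) hj
      have hA2 := hA j (by omega)
      have hB1 := hBs j (by omega)
      have hB2 := hBs (j + 1) hj
      rw [pow_succ q j, mul_pow] at hA1 hB2
      obtain ⟨α1, hα1⟩ : ∃ α, α = a * (q ^ d / ((q ^ j) ^ 2 * q ^ 2)) +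
        a⁻¹ * ((q ^ j) ^ 2 * q ^ 2 / q ^ d) := ⟨_, rfl⟩
      obtain ⟨α2, hα2⟩ : ∃ α, α = a * (q ^ d / (q ^ j) ^ 2) + a⁻¹ * ((q ^ j) ^ 2 / q ^ d) :=
        ⟨_, rfl⟩
      obtain ⟨β1, hβ1⟩ : ∃ α, α = b * ((q ^ j) ^ 2 * q ^ 2 / q ^ d) +
        b⁻¹ * (q ^ d / ((q ^ j) ^ 2 * q ^ 2)) := ⟨_, rfl⟩
      obtain ⟨β2, hβ2⟩ : ∃ α, α = b * ((q ^ j) ^ 2 * q ^ 2 * q ^ 2 / q ^ d) +
        b⁻¹ * (q ^ d / ((q ^ j) ^ 2 * q ^ 2 * q ^ 2)) := ⟨_, rfl⟩
      obtain ⟨P1, hP1⟩ : ∃ α, α = tau d q j * gg d q a b c j *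
        (b - a / c * (q ^ d / ((q ^ j) ^ 2 * q))) := ⟨_, rfl⟩
      obtain ⟨P2, hP2⟩ : ∃ α, α = tau d q (j + 1) * gg d q a b c (j + 1) *
        (b - a / c * (q ^ d / ((q ^ j) ^ 2 * q ^ 2 * q))) := ⟨_, rfl⟩
      rw [← hα1] at hA1
      rw [← hα2] at hA2
      rw [← hβ1, ← hP1] at hB1
      rw [← hβ2, ← hP2] at hB2
      have hAB : (A * B) (ww e (j + 1)) = (β1 * α1 + P1) • ww e (j + 1) +
          β1 • ww e (j + 1 + 1) + (P1 * α2) • ww e j := by
        rw [Module.End.mul_apply, hB1, map_add, map_smul, map_smul, hA1, hA2]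
        module
      have hBA : (B * A) (ww e (j + 1)) = (β1 * α1 + P2) • ww e (j + 1) +
          β2 • ww e (j + 1 + 1) + (P1 * α1) • ww e j := by
        rw [Module.End.mul_apply, hA1, map_add, map_smul, hB1, hB2]
        module
      simp only [LinearMap.add_apply, LinearMap.sub_apply, LinearMap.smul_apply,
        Module.End.one_apply]
      rw [hAB, hBA, hYZs j (by omega), hZYs j (by omega), hYw, hZs]
      have hL : q⁻¹ • ((β1 * α1 + P1) • ww e (j + 1) +
          β1 • ww e (j + 1 + 1) + (P1 * α2) • ww e j) - q • ((β1 * α1 + P2) • ww e (j + 1) +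
          β2 • ww e (j + 1 + 1) + (P1 * α1) • ww e j) +
          ((q - q⁻¹) * (ss a * ss b + ss c * tt d q)) • ww e (j + 1) =
          (q⁻¹ * (β1 * α1 + P1) - q * (β1 * α1 + P2) +
            (q - q⁻¹) * (ss a * ss b + ss c * tt d q)) • ww e (j + 1) +
          (q⁻¹ * (P1 * α2) - q * (P1 * α1)) • ww e j +
          ((q ^ 2 - (q ^ 2)⁻¹) * (-(b * ((q ^ j) ^ 2 * q ^ 2) * q / q ^ d))) •
            ww e (j + 1 + 1) := by
        have h5 : q⁻¹ * β1 - q * β2 =
            ((q ^ 2 - (q ^ 2)⁻¹) * (-(b * ((q ^ j) ^ 2 * q ^ 2) * q / q ^ d))) := by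
          rw [hβ1, hβ2]
          field_simp
          ring
        rw [← h5]
        module
      rw [hL, ← h2]
      generalize hg : (gg d q a b c (j + 1))⁻¹ = g
      rw [hα1, hα2, hβ1, hP1, hP2, tau, tau, gg, gg, ss, ss, ss, tt, pow_succ q d, pow_succ q j]
      match_scalars
      · field_simp
        ring
      · field_simp
        ring
      · field_simp
        ring

end Proof

end Pool.Agent.Results.MP_dc3d2a_al.EquitableAction
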